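import Mathlib
import Pool.Agent.H554R2.Sem.Defs
import Pool.Agent.H554R2.Coin.Defs
import Pool.Agent.H554R2.Cnf.Defs
import Pool.Agent.H554R2.Cnf.FinalDefs

/-!
# Gap versions: definitions
-/

set_option autoImplicit false

open Finset

namespace Pool.Agent.H554R2.Gap

open Pool.Agent.H554R2.Sem Pool.Agent.H554R2.Cnf

open Classical in
/-- The points which violate fewer than `v` of the clauses `T j`. -/
noncomputable def CV {n K J : ℕ} (T : Fin J → Fin K → Fin n × Bool) (v : ℕ) : Finset (Pt n) :=
  univ.filter (fun x => (univ.filter (fun j => Fails (T j) x)).card < v)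

/-- the variables which are not queried along `l` -/
def unread {n : ℕ} (P : NBP (Fin n)) (l : List P.State) : Finset (Fin n) :=
  univ.filter (fun i => i ∉ l.filterMap P.query)

/-- `P`, and then the variables of the list `U` are queried (the answers do not matter). -/
def ext {n : ℕ} (P : NBP (Fin n)) (U : List (Fin n)) : NBP (Fin n) where
  State := P.State ⊕ Fin (U.length + 1)
  start := Sum.inl P.start
  query := fun s => match s with
    | Sum.inl s => P.query s
    | Sum.inr i => U[i.val]?
  edge := fun s b t => match s with
    | Sum.inl s => (∃ t', t = some (Sum.inl t') ∧ P.edge s b (some t')) ∨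
        (t = some (Sum.inr 0) ∧ P.edge s b none)
    | Sum.inr i => (∃ h : i.val + 1 < U.length + 1, t = some (Sum.inr ⟨i.val + 1, h⟩)) ∨
        (i.val = U.length ∧ t = none)

end Pool.Agent.H554R2.Gap
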