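import Pool.Agent.H554R2.Gap.Tests

/-!
# Randomised algorithms with a constant number of queries against deterministic programs of
length `k n`
-/

set_option autoImplicit false

open Finset

namespace Pool.Agent.H554R2.Gap

open Pool.Agent.H554R2.Sem Pool.Agent.H554R2.Coin Pool.Agent.H554R2.Cnf Pool.Agent.H554R2.Lin

theorem tests' {n D J : ℕ} (hD : 0 < D) (hJ : 0 < J) (T : Fin J → Finset (Fin n × Bool))
    (hT : ∀ j, (T j).card ≤ D) : ∃ U : (Fin (2 * D) → Fin J) → BP (Fin n) Bool,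
      (∀ ω, Fintype.card (U ω).State ≤ 9 * D ^ 2 ∧
        ∀ x, ∃ (l : List (Fin n)) (b : Bool), l.length ≤ 2 * D ^ 2 ∧ (U ω).Comp x l b) ∧
      (∀ x, (∀ j, Sat (T j) x) → ∀ ω, ∃ l, (U ω).Comp x l true) ∧
      (∀ x, J ≤ D * Nat.card {j // ¬ Sat (T j) x} →
        3 * Nat.card {ω // ∃ l, (U ω).Comp x l true} ≤ J ^ (2 * D)) := by
  obtain ⟨U, h1, h2, h3⟩ := random_tests hD hJ T hT
  refine ⟨U, fun ω => ⟨(h1 ω).1.trans ?_, fun x => ?_⟩, h2, h3⟩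
  · nlinarith
  · obtain ⟨l, b, h4, h5⟩ := (h1 ω).2 x
    exact ⟨l, b, h4.trans (le_of_eq (by ring)), h5⟩

theorem det_main (k : ℕ) : ∃ D : ℕ, 0 < D ∧ ∀ n ≥ D,
    ∃ (J : ℕ) (T : Fin J → Finset (Fin n × Bool)), 0 < J ∧ J ≤ D * n ∧ (∀ j, (T j).card ≤ D) ∧
      (∃ U : (Fin (2 * D) → Fin J) → BP (Fin n) Bool,
        (∀ ω, Fintype.card (U ω).State ≤ 9 * D ^ 2 ∧
          ∀ x, ∃ (l : List (Fin n)) (b : Bool), l.length ≤ 2 * D ^ 2 ∧ (U ω).Comp x l b) ∧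
        (∀ x, (∀ j, Sat (T j) x) → ∀ ω, ∃ l, (U ω).Comp x l true) ∧
        (∀ x, J ≤ D * Nat.card {j // ¬ Sat (T j) x} →
          3 * Nat.card {ω // ∃ l, (U ω).Comp x l true} ≤ J ^ (2 * D))) ∧
      ∀ P : BP (Fin n) Bool, Fintype.card P.State < 2 ^ (n / D) →
        (∀ x, J ≤ D * Nat.card {j // ¬ Sat (T j) x} → ¬ ∃ l, P.Comp x l true) →
        2 ^ (n / D) * Nat.card {x // (∀ j, Sat (T j) x) ∧
            ∃ l, P.Comp x l true ∧ l.length ≤ k * n} <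
          Nat.card {x : Pt n // ∀ j, Sat (T j) x} := by
  obtain ⟨D, hD, h⟩ := final_det k
  refine ⟨D, hD, fun n hn => ?_⟩
  obtain ⟨J, T, hJ0, hJ, hT, _, hl⟩ := h n hn
  refine ⟨J, T, hJ0, hJ, hT, tests' hD hJ0 T hT, fun P hP hs => hl P hP fun x l hc => ?_⟩
  by_contra hcon
  push Not at hcon
  exact hs x hcon ⟨l, hc⟩

end Pool.Agent.H554R2.Gap
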