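import Mathlib
import Pool.Agent.H554R2.Gap.Defs

/-!
# G3b: runs of the extended program
-/

set_option autoImplicit false

open Finset

namespace Pool.Agent.H554R2.Gap

open Pool.Agent.H554R2.Sem Pool.Agent.H554R2.Cnf

theorem ext_step_inl {n : ℕ} (P : NBP (Fin n)) (U : List (Fin n)) (x : Pt n) (s : P.State)
    (t : Option (ext P U).State) : (ext P U).Step x (Sum.inl s) t ↔
      (∃ t', t = some (Sum.inl t') ∧ P.Step x s (some t')) ∨
        (t = some (Sum.inr 0) ∧ P.Step x s none) := by
  have hq : (ext P U).query (Sum.inl s) = P.query s := rfl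
  have he : ∀ b, (ext P U).edge (Sum.inl s) b t ↔
      ((∃ t', t = some (Sum.inl t') ∧ P.edge s b (some t')) ∨
        (t = some (Sum.inr 0) ∧ P.edge s b none)) := fun b => Iff.rfl
  unfold NBP.Step
  rw [hq]
  cases P.query s with
  | none =>
    simp only [he]
    constructor
    · rintro ⟨b, ⟨t', h1, h2⟩ | ⟨h1, h2⟩⟩
      · exact Or.inl ⟨t', h1, b, h2⟩
      · exact Or.inr ⟨h1, b, h2⟩
    · rintro (⟨t', h1, b, h2⟩ | ⟨h1, b, h2⟩)
      · exact ⟨b, Or.inl ⟨t', h1, h2⟩⟩
      · exact ⟨b, Or.inr ⟨h1, h2⟩⟩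
  | some v => exact he _

theorem ext_step_inr {n : ℕ} (P : NBP (Fin n)) (U : List (Fin n)) (x : Pt n)
    (i : Fin (U.length + 1)) (t : Option (ext P U).State)
    (h : (∃ h : i.val + 1 < U.length + 1, t = some (Sum.inr ⟨i.val + 1, h⟩)) ∨
      (i.val = U.length ∧ t = none)) : (ext P U).Step x (Sum.inr i) t := by
  have he : ∀ b, (ext P U).edge (Sum.inr i) b t := fun b => h
  unfold NBP.Step
  cases (ext P U).query (Sum.inr i) with
  | none => exact ⟨true, he _⟩
  | some v => exact he _

theorem ext_sound_aux {n : ℕ} (P : NBP (Fin n)) (U : List (Fin n)) (x : Pt n) :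
    ∀ (l : List (ext P U).State) (s : P.State), hd l none = some (Sum.inl s) →
      (ext P U).Run x l none → ∃ l', hd l' none = some s ∧ P.Run x l' none := by
  intro l
  induction l with
  | nil => intro s h; simp [hd] at h
  | cons q l ih =>
    intro s h hr
    have hq : q = Sum.inl s := Option.some.inj h
    subst hq
    obtain ⟨h1, h2⟩ := hr
    rcases (ext_step_inl P U x s _).1 h1 with ⟨t', h3, h4⟩ | ⟨h3, h4⟩
    · obtain ⟨l', h5, h6⟩ := ih t' h3 h2
      exact ⟨s :: l', rfl, by rw [NBP.Run, h5]; exact ⟨h4, h6⟩⟩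
    · exact ⟨[s], rfl, h4, trivial⟩

/-- G3b: soundness of the extended program -/
theorem ext_sound {n : ℕ} (P : NBP (Fin n)) (U : List (Fin n)) (x : Pt n)
    (l : List (ext P U).State) (h : (ext P U).Accepting x l) : ∃ l', P.Accepting x l' :=
  ext_sound_aux P U x l P.start h.1 h.2

theorem ext_tail {n : ℕ} (P : NBP (Fin n)) (U : List (Fin n)) (x : Pt n) :
    ∀ (d i : ℕ) (h : i + d = U.length), ∃ l' : List (ext P U).State,
      hd l' none = some (Sum.inr ⟨i, by omega⟩) ∧ (ext P U).Run x l' none ∧
      l'.filterMap (ext P U).query = U.drop i := by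
  intro d
  induction d with
  | zero =>
    intro i h
    refine ⟨[Sum.inr ⟨i, by omega⟩], rfl, ⟨?_, trivial⟩, ?_⟩
    · exact ext_step_inr P U x _ _ (Or.inr ⟨by simpa using h, rfl⟩)
    · have h1 : (ext P U).query (Sum.inr ⟨i, by omega⟩) = none := by
        show U[i]? = none
        exact List.getElem?_eq_none (by omega)
      rw [List.filterMap_cons, h1, List.drop_of_length_le (by omega)]
      rfl
  | succ d ih =>
    intro i h
    obtain ⟨l', h1, h2, h3⟩ := ih (i + 1) (by omega)
    refine ⟨Sum.inr ⟨i, by omega⟩ :: l', rfl, ⟨?_, h2⟩, ?_⟩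
    · rw [h1]
      exact ext_step_inr P U x _ _ (Or.inl ⟨by simp only; omega, rfl⟩)
    · have hi : i < U.length := by omega
      have h4 : (ext P U).query (Sum.inr ⟨i, by omega⟩) = some U[i] := by
        show U[i]? = some U[i]
        exact List.getElem?_eq_getElem hi
      rw [List.filterMap_cons, h4, h3]
      exact (List.drop_eq_getElem_cons hi).symm

theorem ext_complete_aux {n : ℕ} (P : NBP (Fin n)) (U : List (Fin n)) (x : Pt n) :
    ∀ (l : List P.State) (s : P.State), hd l none = some s → P.Run x l none →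
      ∃ l' : List (ext P U).State, hd l' none = some (Sum.inl s) ∧
        (ext P U).Run x l' none ∧
        l'.filterMap (ext P U).query = l.filterMap P.query ++ U := by
  intro l
  induction l with
  | nil => intro s h; simp [hd] at h
  | cons q l ih =>
    intro s h hr
    have hq : q = s := Option.some.inj h
    subst hq
    obtain ⟨h1, h2⟩ := hr
    have hqs : (ext P U).query (Sum.inl q) = P.query q := rfl
    cases l with
    | nil =>
      obtain ⟨l', h3, h4, h5⟩ := ext_tail P U x U.length 0 (by omega)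
      refine ⟨Sum.inl q :: l', rfl, ⟨?_, h4⟩, ?_⟩
      · rw [h3]
        exact (ext_step_inl P U x q _).2 (Or.inr ⟨rfl, h1⟩)
      · rw [List.filterMap_cons, List.filterMap_cons, hqs, h5]
        cases P.query q <;> simp
    | cons t l =>
      obtain ⟨l', h3, h4, h5⟩ := ih t rfl h2
      refine ⟨Sum.inl q :: l', rfl, ⟨?_, h4⟩, ?_⟩
      · rw [h3]
        exact (ext_step_inl P U x q _).2 (Or.inl ⟨t, rfl, h1⟩)
      · rw [List.filterMap_cons, List.filterMap_cons (f := P.query), hqs, h5]
        cases P.query q <;> simp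

/-- G3b: completeness of the extended program -/
theorem ext_complete {n : ℕ} (P : NBP (Fin n)) (U : List (Fin n)) (x : Pt n)
    (l : List P.State) (h : P.Accepting x l) : ∃ l' : List (ext P U).State,
      (ext P U).Accepting x l' ∧
      l'.filterMap (ext P U).query = l.filterMap P.query ++ U := by
  obtain ⟨l', h1, h2, h3⟩ := ext_complete_aux P U x l P.start h.1 h.2
  exact ⟨l', ⟨h1, h2⟩, h3⟩

end Pool.Agent.H554R2.Gap
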