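import Pool.Agent.H554R2.Cnf.Crit
import Pool.Agent.H554R2.Cnf.Conv
import Pool.Agent.H554R2.Compl.Main
import Pool.Agent.H554R2.Gap.Defs

/-!
# The criterion with full reading instead of isolation

This is `Pool.Agent.H554R2.Cnf.Fast` (from `Pool.Agent.H538R2.SRO.T7`, by helper538).  Without
isolation a hybrid computation may leave variables unread, but only few (no large rectangles);
therefore a colour of each of the sets `XT X T a` is added to the key, for a colouring in which
different sets at small distance have different colours.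
-/

set_option autoImplicit false

namespace Pool.Agent.H554R2.Gap.Full

open Finset Pool.Agent.H538R2.SRO
open Pool.Agent.H554R2.Cnf.Fast (cnt cnt_pos tests_eq)

section aux

variable {n : ℕ} {V : Type} (G : NBP (Fin n) V)

private theorem isWalk_append (u w : V) (l1 l2 : List G.E) :
    G.IsWalk u w (l1 ++ l2) ↔ ∃ v, G.IsWalk u v l1 ∧ G.IsWalk v w l2 := by
  induction l1 generalizing u with
  | nil =>
    constructor
    · intro h; exact ⟨u, rfl, h⟩
    · rintro ⟨v, h1, h2⟩
      have : u = v := h1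
      subst this; exact h2
  | cons e l ih =>
    simp only [List.cons_append, NBP.IsWalk, ih]
    constructor
    · rintro ⟨h1, v, h2, h3⟩; exact ⟨v, ⟨h1, h2⟩, h3⟩
    · rintro ⟨v, ⟨h1, h2⟩, h3⟩; exact ⟨h1, v, h2, h3⟩

private theorem agrees_append (x : Fin n → Bool) (l1 l2 : List G.E) :
    G.Agrees x (l1 ++ l2) ↔ G.Agrees x l1 ∧ G.Agrees x l2 := by
  constructor
  · intro h
    exact ⟨fun e he => h e (List.mem_append_left _ he), fun e he => h e (List.mem_append_right _ he)⟩
  · rintro ⟨h1, h2⟩ e he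
    rcases List.mem_append.1 he with he | he
    · exact h1 e he
    · exact h2 e he

private theorem exists_split {α : Type} (p : α → Bool) (l : List α) (m : ℕ)
    (h : m ≤ l.countP p) : ∃ l1 l2, l = l1 ++ l2 ∧ l1.countP p = m := by
  induction l generalizing m with
  | nil =>
    refine ⟨[], [], rfl, ?_⟩
    simp at h ⊢
    exact h.symm
  | cons e l ih =>
    rcases Nat.eq_zero_or_pos m with rfl | hm
    · exact ⟨[], e :: l, rfl, by simp⟩
    · rw [List.countP_cons] at h
      by_cases hp : p e = true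
      · rw [if_pos hp] at h
        obtain ⟨l1, l2, h1, h2⟩ := ih (m - 1) (by omega)
        refine ⟨e :: l1, l2, by rw [h1]; rfl, ?_⟩
        rw [List.countP_cons, if_pos hp, h2]; omega
      · rw [if_neg hp] at h
        obtain ⟨l1, l2, h1, h2⟩ := ih m (by omega)
        refine ⟨e :: l1, l2, by rw [h1]; rfl, ?_⟩
        rw [List.countP_cons, if_neg hp, h2]; omega

private theorem cnt_append (l1 l2 : List G.E) (i : Fin n) :
    cnt G (l1 ++ l2) i = cnt G l1 i + cnt G l2 i := by
  unfold cnt; rw [List.countP_append]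

/-- number of tests of variables in `S`. -/
private def mk (S : Finset (Fin n)) (e : G.E) : Bool :=
  decide (∃ i ∈ S, (G.lab e).map Prod.fst = some i)

private theorem countP_mk (S : Finset (Fin n)) (l : List G.E) :
    l.countP (mk G S) = ∑ i ∈ S, cnt G l i := by
  induction l with
  | nil => simp [cnt]
  | cons e l ih =>
    have h1 : ∀ i, cnt G (e :: l) i = cnt G l i + if (G.lab e).map Prod.fst = some i then 1 else 0 := by
      intro i
      unfold cnt
      rw [List.countP_cons]
      simp
    rw [List.countP_cons, ih, Finset.sum_congr rfl (fun i _ => h1 i), Finset.sum_add_distrib]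
    congr 1
    unfold mk
    rcases hl : G.lab e with _ | ⟨j, b⟩
    · simp
    · simp

/-- the variables outside `R` tested along `l`. -/
private def Xs (R : Finset (Fin n)) (l : List G.E) : Finset (Fin n) :=
  Rᶜ.filter (fun i => 1 ≤ cnt G l i)

private theorem decomp {ℓ k : ℕ} (hℓ : 3 * ℓ ≤ n) (hk : k ≤ ℓ)
    (x : Fin n → Bool) (hx : ∃ l, G.AccComp x l ∧ (∀ i, 1 ≤ cnt G l i) ∧
      ((univ.filter (fun i => 2 ≤ cnt G l i)).card ≤ k ∨ G.tests l ≤ n + k)) :
    ∃ (R : Finset (Fin n)) (p : Fin 4 → List G.E) (u : Fin 5 → V),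
      R.card ≤ k ∧ u 0 = G.start ∧ u 4 = G.accept ∧
      (∀ t : Fin 4, G.IsWalk (u t.castSucc) (u t.succ) (p t)) ∧
      (∀ t : Fin 4, G.Agrees x (p t)) ∧
      (∀ t t' : Fin 4, t ≠ t' → Disjoint (Xs G R (p t)) (Xs G R (p t'))) ∧
      (Finset.univ.biUnion (fun t => Xs G R (p t)) = Rᶜ) ∧
      (Xs G R (p 0)).card = n - 3 * ℓ ∧ (Xs G R (p 1)).card = ℓ ∧
      (Xs G R (p 2)).card = ℓ ∧ (Xs G R (p 3)).card = ℓ - R.card := by
  classical
  obtain ⟨l, hacc, hc, ht⟩ := hx
  set R : Finset (Fin n) := Finset.univ.filter (fun i => 2 ≤ cnt G l i) with hR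
  -- the card of R
  have hRc : R.card ≤ k := by
    rcases ht with ht | ht
    · exact ht
    have h1 : ∑ i : Fin n, cnt G l i ≤ n + k := by rw [← tests_eq]; exact ht
    have h2 : ∑ i : Fin n, (1 + if i ∈ R then 1 else 0) ≤ ∑ i : Fin n, cnt G l i := by
      refine Finset.sum_le_sum (fun i _ => ?_)
      by_cases hi : i ∈ R
      · rw [if_pos hi]; rw [hR, Finset.mem_filter] at hi; omega
      · rw [if_neg hi]; have := hc i; omega
    rw [Finset.sum_add_distrib] at h2
    simp only [Finset.sum_const, Finset.card_univ, Fintype.card_fin, smul_eq_mul, mul_one,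
      Finset.sum_ite_mem, Finset.univ_inter] at h2
    omega
  have hone : ∀ i, i ∉ R → cnt G l i = 1 := by
    intro i hi
    rw [hR, Finset.mem_filter] at hi
    have := hc i
    simp only [Finset.mem_univ, true_and] at hi
    omega
  have hRn : Rᶜ.card = n - R.card := by rw [Finset.card_compl, Fintype.card_fin]
  have hmk : l.countP (mk G Rᶜ) = n - R.card := by
    rw [countP_mk, Finset.sum_congr rfl (fun i hi => hone i (Finset.mem_compl.1 hi))]
    simp [hRn]
  have hRn' : R.card ≤ n := by omega
  obtain ⟨l0, r0, e0, c0⟩ := exists_split (mk G Rᶜ) l (n - 3 * ℓ) (by omega)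
  have d0 : r0.countP (mk G Rᶜ) = 3 * ℓ - R.card := by
    have := hmk; rw [e0, List.countP_append] at this; omega
  obtain ⟨l1, r1, e1, c1⟩ := exists_split (mk G Rᶜ) r0 ℓ (by omega)
  have d1 : r1.countP (mk G Rᶜ) = 2 * ℓ - R.card := by
    rw [e1, List.countP_append] at d0; omega
  obtain ⟨l2, l3, e2, c2⟩ := exists_split (mk G Rᶜ) r1 ℓ (by omega)
  have c3 : l3.countP (mk G Rᶜ) = ℓ - R.card := by
    rw [e2, List.countP_append] at d1; omega
  have el : l = l0 ++ (l1 ++ (l2 ++ l3)) := by rw [e0, e1, e2]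
  have hw := hacc.1
  rw [el, isWalk_append] at hw
  obtain ⟨u1, w0, hw⟩ := hw
  rw [isWalk_append] at hw
  obtain ⟨u2, w1, hw⟩ := hw
  rw [isWalk_append] at hw
  obtain ⟨u3, w2, w3⟩ := hw
  have ha := hacc.2
  rw [el, agrees_append, agrees_append, agrees_append] at ha
  obtain ⟨a0, a1, a2, a3⟩ := ha
  have hsum : ∀ i, cnt G l0 i + (cnt G l1 i + (cnt G l2 i + cnt G l3 i)) = cnt G l i := by
    intro i
    rw [el, cnt_append, cnt_append, cnt_append]
  -- cardinality of Xs
  have hcard : ∀ q : List G.E, (∀ i, i ∉ R → cnt G q i ≤ 1) →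
      (Xs G R q).card = q.countP (mk G Rᶜ) := by
    intro q hq
    rw [countP_mk]
    unfold Xs
    rw [Finset.card_filter]
    refine Finset.sum_congr rfl (fun i hi => ?_)
    have := hq i (Finset.mem_compl.1 hi)
    split_ifs with h <;> omega
  refine ⟨R, ![l0, l1, l2, l3], ![G.start, u1, u2, u3, G.accept], hRc, rfl, rfl, ?_, ?_, ?_, ?_,
    ?_, ?_, ?_, ?_⟩
  · intro t
    fin_cases t
    · exact w0
    · exact w1
    · exact w2
    · exact w3
  · intro t
    fin_cases t
    · exact a0
    · exact a1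
    · exact a2
    · exact a3
  · intro t t' htt
    rw [Finset.disjoint_left]
    intro i hi hi'
    unfold Xs at hi hi'
    rw [Finset.mem_filter] at hi hi'
    have h1 := hone i (Finset.mem_compl.1 hi.1)
    have h2 := hsum i
    have h3 := hi.2
    have h4 := hi'.2
    fin_cases t <;> fin_cases t' <;> first
      | exact htt rfl
      | (simp at h3 h4; omega)
  · ext i
    simp only [Finset.mem_biUnion, Finset.mem_univ, true_and]
    constructor
    · rintro ⟨t, hi⟩
      exact (Finset.mem_filter.1 hi).1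
    · intro hi
      have h1 := hone i (Finset.mem_compl.1 hi)
      have h2 := hsum i
      by_contra hcon
      push Not at hcon
      have hz : ∀ t : Fin 4, cnt G ((![l0, l1, l2, l3] : Fin 4 → List G.E) t) i = 0 := by
        intro t
        by_contra h
        exact hcon t (Finset.mem_filter.2 ⟨hi, Nat.one_le_iff_ne_zero.2 h⟩)
      have z0 : cnt G l0 i = 0 := hz 0
      have z1 : cnt G l1 i = 0 := hz 1
      have z2 : cnt G l2 i = 0 := hz 2
      have z3 : cnt G l3 i = 0 := hz 3
      omega
  · rw [← c0]; exact hcard l0 (fun i hi => by have := hone i hi; have := hsum i; omega)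
  · exact (hcard l1 (fun i hi => by have := hone i hi; have := hsum i; omega)).trans c1
  · exact (hcard l2 (fun i hi => by have := hone i hi; have := hsum i; omega)).trans c2
  · exact (hcard l3 (fun i hi => by have := hone i hi; have := hsum i; omega)).trans c3

private theorem card_XT {P : Finset (Fin n → Bool)} {X : Fin 4 → (Fin n → Bool) → Finset (Fin n)}
    (hdisj : ∀ a ∈ P, ∀ t t' : Fin 4, t ≠ t' → Disjoint (X t a) (X t' a))
    {a b : Fin n → Bool} (ha : a ∈ P) (hb : b ∈ P) (hc : ∀ t, (X t a).card = (X t b).card)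
    (T : Finset (Fin 4)) : (XT X T a).card = (XT X T b).card := by
  unfold XT
  rw [Finset.card_biUnion (fun t _ t' _ h => hdisj a ha t t' h),
    Finset.card_biUnion (fun t _ t' _ h => hdisj b hb t t' h)]
  exact Finset.sum_congr rfl (fun t _ => hc t)

end aux


/-! ### greedy colouring -/

theorem greedy {α : Type} [Fintype α] [DecidableEq α] (r : α → α → Prop) [DecidableRel r]
    (hsymm : ∀ a b, r a b → r b a) (B : ℕ)
    (hdeg : ∀ a, (univ.filter (fun b => r a b)).card ≤ B) :
    ∃ χ : α → Fin (B + 1), ∀ a b, a ≠ b → r a b → χ a ≠ χ b := by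
  have key : ∀ s : Finset α, ∃ χ : α → Fin (B + 1), ∀ a ∈ s, ∀ b ∈ s, a ≠ b → r a b → χ a ≠ χ b := by
    intro s
    induction s using Finset.induction_on with
    | empty => exact ⟨fun _ => 0, by simp⟩
    | insert a s ha ih =>
      obtain ⟨χ, hχ⟩ := ih
      have h1 : ((univ.filter (fun b => r a b)).image χ).card < (univ : Finset (Fin (B + 1))).card := by
        refine lt_of_le_of_lt (card_image_le.trans (hdeg a)) ?_
        rw [card_univ, Fintype.card_fin]
        exact Nat.lt_succ_self B
      obtain ⟨c, -, hc⟩ := exists_mem_notMem_of_card_lt_card h1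
      have hcol : ∀ b ∈ s, r a b → c ≠ χ b := by
        intro b _ hab h
        exact hc (mem_image.2 ⟨b, mem_filter.2 ⟨mem_univ _, hab⟩, h.symm⟩)
      refine ⟨Function.update χ a c, ?_⟩
      intro x hx y hy hxy hr
      rcases mem_insert.1 hx with hxa | hxs
      · rcases mem_insert.1 hy with hya | hys
        · exact absurd (hxa.trans hya.symm) hxy
        · have hya : y ≠ a := fun h => hxy (hxa.trans h.symm)
          rw [hxa, Function.update_self, Function.update_of_ne hya]
          exact hcol y hys (hxa ▸ hr)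
      · have hxa : x ≠ a := fun h => ha (h ▸ hxs)
        rcases mem_insert.1 hy with hya | hys
        · rw [hya, Function.update_self, Function.update_of_ne hxa]
          exact (hcol x hxs (hsymm _ _ (hya ▸ hr))).symm
        · have hya : y ≠ a := fun h => ha (h ▸ hys)
          rw [Function.update_of_ne hxa, Function.update_of_ne hya]
          exact hχ x hxs y hys hxy hr
  obtain ⟨χ, hχ⟩ := key univ
  exact ⟨χ, fun a b hab hr => hχ a (mem_univ _) b (mem_univ _) hab hr⟩

theorem colouring (n m : ℕ) : ∃ χ : Finset (Fin n) → Fin ((∑ i ∈ range (2 * m + 1), n.choose i) + 1),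
    ∀ S S' : Finset (Fin n), (S \ S').card ≤ m → (S' \ S).card ≤ m → χ S = χ S' → S = S' := by
  classical
  obtain ⟨χ, hχ⟩ := greedy (fun S S' : Finset (Fin n) => (S \ S').card ≤ m ∧ (S' \ S).card ≤ m)
    (fun _ _ h => ⟨h.2, h.1⟩) (∑ i ∈ range (2 * m + 1), n.choose i) (by
      intro S
      have h1 : (univ.filter (fun S' : Finset (Fin n) => (S \ S').card ≤ m ∧ (S' \ S).card ≤ m)).card ≤
          ((range (2 * m + 1)).biUnion (fun r => powersetCard r (univ : Finset (Fin n)))).card := by
        refine card_le_card_of_injOn (fun S' => symmDiff S S') ?_ ?_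
        · intro S' hS'
          have h2 := (mem_filter.1 hS').2
          rw [coe_biUnion]
          simp only [Set.mem_iUnion, mem_coe, mem_range, mem_powersetCard]
          refine ⟨(symmDiff S S').card, ?_, subset_univ _, rfl⟩
          have h3 : (symmDiff S S').card ≤ (S \ S').card + (S' \ S).card := by
            rw [symmDiff_def]
            exact card_union_le _ _
          omega
        · intro S' _ S'' _ h
          exact symmDiff_right_injective S h
      refine h1.trans (card_biUnion_le.trans (sum_le_sum fun r _ => ?_))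
      rw [card_powersetCard, card_univ, Fintype.card_fin])
  refine ⟨χ, fun S S' h1 h2 h3 => ?_⟩
  by_contra hne
  exact hχ S S' hne ⟨h1, h2⟩ h3

/-! ### few unread variables -/

theorem unread_small {n c : ℕ} {V : Type} (G : NBP (Fin n) V) (F : Finset (Fin n → Bool))
    (hF : NoRect F c) (hsound : ∀ x l, G.AccComp x l → x ∈ F) (z : Fin n → Bool) (l : List G.E)
    (hacc : G.AccComp z l) : (univ.filter (fun i => cnt G l i = 0)).card < 2 * c := by
  classical
  by_contra hcon
  push Not at hcon
  set U := univ.filter (fun i : Fin n => cnt G l i = 0) with hU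
  obtain ⟨D, hDU, hDc⟩ := exists_subset_card_eq (show c ≤ U.card by omega)
  set A : Finset (Fin n → Bool) := univ.filter (fun y => ∀ i, i ∉ U → y i = z i) with hA
  have hAF : ∀ y ∈ A, y ∈ F := by
    intro y hy
    refine hsound y l ⟨hacc.1, ?_⟩
    intro e he j b hl
    have hj : j ∉ U := by
      intro hj
      have h1 := (mem_filter.1 hj).2
      have h2 := (cnt_pos G l j).2 ⟨e, he, b, hl⟩
      omega
    rw [(mem_filter.1 hy).2 j hj]
    exact hacc.2 e he j b hl
  have h1 := hF D A A (by
    intro a ha b hb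
    refine hAF _ (mem_filter.2 ⟨mem_univ _, fun i hi => ?_⟩)
    unfold glue
    split_ifs
    · exact (mem_filter.1 ha).2 i hi
    · exact (mem_filter.1 hb).2 i hi)
  -- patterns
  have hpat : ∀ (D' W : Finset (Fin n)), W ⊆ U → W ⊆ D' → 2 ^ W.card ≤ (A.image (res D')).card := by
    intro D' W hWU hWD
    rw [← card_powerset]
    refine card_le_card_of_injOn (fun S => res D' (fun i => if i ∈ W then decide (i ∈ S) else z i)) ?_ ?_
    · intro S _
      rw [mem_coe, mem_image]
      refine ⟨_, mem_filter.2 ⟨mem_univ _, fun i hi => ?_⟩, rfl⟩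
      exact if_neg (fun h => hi (hWU h))
    · intro S hS S' hS' h
      have hS1 := mem_powerset.1 (mem_coe.1 hS)
      have hS2 := mem_powerset.1 (mem_coe.1 hS')
      ext i
      by_cases hi : i ∈ W
      · have h2 := congrFun h i
        simp only [res, if_pos (hWD hi), if_pos hi] at h2
        exact decide_eq_decide.1 h2
      · exact ⟨fun h => absurd (hS1 h) hi, fun h => absurd (hS2 h) hi⟩
  have h2 := h1 (by
    have := hpat D D hDU (Subset.refl _)
    rwa [hDc] at this)
  have h3 := hpat Dᶜ (U \ D) sdiff_subset (fun i hi => mem_compl.2 (mem_sdiff.1 hi).2)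
  have h4 : c ≤ (U \ D).card := by
    rw [card_sdiff_of_subset hDU]; omega
  have h5 : 2 ^ c ≤ 2 ^ (U \ D).card := Nat.pow_le_pow_right (by norm_num) h4
  omega

theorem full_card {n ℓ k c : ℕ} (F : Finset (Fin n → Bool)) (V : Type) [Fintype V]
    (G : NBP (Fin n) V) (hℓ : 3 * ℓ ≤ n) (hk : k ≤ ℓ)
    (hNR : NoRect F c)
    (hsound : ∀ x l, G.AccComp x l → x ∈ F) (Bd : ℕ)
    (hBd : ∀ r ≤ k, ∀ fam : Fam n ℓ r F, fam.P.card ≤ Bd)
    (Fast : Finset (Fin n → Bool))
    (hfast : ∀ x ∈ Fast, ∃ l, G.AccComp x l ∧ (∀ i, 1 ≤ cnt G l i) ∧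
      ((univ.filter (fun i => 2 ≤ cnt G l i)).card ≤ k ∨ G.tests l ≤ n + k)) :
    Fast.card ≤ ((∑ r ∈ range (k + 1), n.choose r) * 2 ^ k * Fintype.card V ^ 3) *
      ((∑ i ∈ range (2 * (2 * c) + 1), n.choose i) + 1) ^ 16 * Bd := by
  classical
  obtain ⟨χ, hχ⟩ := colouring n (2 * c)
  have : Nonempty V := ⟨G.start⟩
  have hdec : ∀ x, x ∈ Fast → _ := fun x hx => decomp G hℓ hk x (hfast x hx)
  choose! R p u hRk hu0 hu4 hwalk hagr hdisj hun hc0 hc1 hc2 hc3 using hdec
  -- the key
  let Col : Type := Finset (Fin 4) → Fin ((∑ i ∈ range (2 * (2 * c) + 1), n.choose i) + 1)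
  let key : (Fin n → Bool) → ((Σ _ : Finset (Fin n), Finset (Fin n)) × (V × V × V)) × Col := fun x =>
    ((⟨R x, (R x).filter (fun i => x i = true)⟩, (u x 1, u x 2, u x 3)),
      fun T => χ (XT (fun t a => Xs G (R a) (p a t)) T x))
  let KS0 : Finset ((Σ _ : Finset (Fin n), Finset (Fin n)) × (V × V × V)) :=
    ((Finset.univ.filter (fun S : Finset (Fin n) => S.card ≤ k)).sigma
      (fun S => S.powerset)) ×ˢ Finset.univ
  let KS : Finset (((Σ _ : Finset (Fin n), Finset (Fin n)) × (V × V × V)) × Col) :=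
    KS0 ×ˢ Finset.univ
  have hKS0 : KS0.card ≤ (∑ r ∈ range (k + 1), n.choose r) * 2 ^ k * Fintype.card V ^ 3 := by
    have h1 : KS0.card = (∑ S ∈ Finset.univ.filter (fun S : Finset (Fin n) => S.card ≤ k),
        2 ^ S.card) * Fintype.card V ^ 3 := by
      simp only [KS0]
      rw [Finset.card_product, Finset.card_sigma]
      congr 1
      · exact Finset.sum_congr rfl (fun S _ => Finset.card_powerset S)
      · rw [Finset.card_univ, Fintype.card_prod, Fintype.card_prod]; ring
    rw [h1]
    refine Nat.mul_le_mul_right _ ?_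
    calc (∑ S ∈ Finset.univ.filter (fun S : Finset (Fin n) => S.card ≤ k), 2 ^ S.card)
        ≤ ∑ S ∈ Finset.univ.filter (fun S : Finset (Fin n) => S.card ≤ k), 2 ^ k := by
          refine Finset.sum_le_sum (fun S hS => ?_)
          exact Nat.pow_le_pow_right (by norm_num) (Finset.mem_filter.1 hS).2
      _ = (Finset.univ.filter (fun S : Finset (Fin n) => S.card ≤ k)).card * 2 ^ k := by
          rw [Finset.sum_const, smul_eq_mul]
      _ ≤ (∑ r ∈ range (k + 1), n.choose r) * 2 ^ k := by
          refine Nat.mul_le_mul_right _ ?_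
          have h2 : (Finset.univ.filter (fun S : Finset (Fin n) => S.card ≤ k)) ⊆
              (range (k + 1)).biUnion (fun r => Finset.powersetCard r (Finset.univ : Finset (Fin n))) := by
            intro S hS
            rw [Finset.mem_biUnion]
            refine ⟨S.card, ?_, ?_⟩
            · rw [Finset.mem_range]
              have := (Finset.mem_filter.1 hS).2
              omega
            · rw [Finset.mem_powersetCard]; exact ⟨Finset.subset_univ _, rfl⟩
          refine (Finset.card_le_card h2).trans (Finset.card_biUnion_le.trans ?_)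
          refine Finset.sum_le_sum (fun r _ => ?_)
          rw [Finset.card_powersetCard, Finset.card_univ, Fintype.card_fin]
  have hKS : KS.card ≤ ((∑ r ∈ range (k + 1), n.choose r) * 2 ^ k * Fintype.card V ^ 3) *
      ((∑ i ∈ range (2 * (2 * c) + 1), n.choose i) + 1) ^ 16 := by
    simp only [KS]
    rw [Finset.card_product]
    refine Nat.mul_le_mul hKS0 (le_of_eq ?_)
    rw [Finset.card_univ]
    simp only [Col]
    rw [Fintype.card_fun, Fintype.card_fin, Fintype.card_finset, Fintype.card_fin]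
    norm_num
  have himg : Fast.image key ⊆ KS := by
    intro κ hκ
    rw [Finset.mem_image] at hκ
    obtain ⟨x, hx, rfl⟩ := hκ
    simp only [KS, KS0, key, Finset.mem_product, Finset.mem_sigma, Finset.mem_filter, Finset.mem_univ,
      true_and, Finset.mem_powerset, and_true]
    exact ⟨hRk x hx, Finset.filter_subset _ _⟩
  have hfib : ∀ κ ∈ Fast.image key, (Fast.filter (fun x => key x = κ)).card ≤ Bd := by
    intro κ hκ
    rw [Finset.mem_image] at hκ
    obtain ⟨x0, hx0, rfl⟩ := hκ
    set P := Fast.filter (fun x => key x = key x0) with hP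
    have hPF : ∀ a ∈ P, a ∈ Fast := fun a ha => (Finset.mem_filter.1 ha).1
    have hkey : ∀ a ∈ P, R a = R x0 ∧ (∀ i ∈ R x0, a i = x0 i) ∧ u a 1 = u x0 1 ∧
        u a 2 = u x0 2 ∧ u a 3 = u x0 3 := by
      intro a ha
      have h := congrArg Prod.fst (Finset.mem_filter.1 ha).2
      simp only [key, Prod.mk.injEq, Sigma.mk.injEq, heq_eq_eq] at h
      obtain ⟨⟨h1, h2⟩, h3, h4, h5⟩ := h
      refine ⟨h1, ?_, h3, h4, h5⟩
      intro i hi
      have h6 : (i ∈ (R a).filter (fun i => a i = true)) ↔
        (i ∈ (R x0).filter (fun i => x0 i = true)) := by rw [h2]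
      rw [h1, Finset.mem_filter, Finset.mem_filter] at h6
      simp only [hi, true_and] at h6
      exact Bool.eq_iff_iff.2 h6
    have hu : ∀ a ∈ P, ∀ b ∈ P, u a = u b := by
      intro a ha b hb
      obtain ⟨-, -, a1, a2, a3⟩ := hkey a ha
      obtain ⟨-, -, b1, b2, b3⟩ := hkey b hb
      funext t
      fin_cases t
      · exact (hu0 a (hPF a ha)).trans (hu0 b (hPF b hb)).symm
      · exact a1.trans b1.symm
      · exact a2.trans b2.symm
      · exact a3.trans b3.symm
      · exact (hu4 a (hPF a ha)).trans (hu4 b (hPF b hb)).symm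
    have hRR : ∀ a ∈ P, R a = R x0 := fun a ha => (hkey a ha).1
    set X : Fin 4 → (Fin n → Bool) → Finset (Fin n) := fun t a => Xs G (R a) (p a t) with hX
    have hXR : ∀ a ∈ P, ∀ t, X t a ⊆ (R x0)ᶜ := by
      intro a ha t i hi
      have := (Finset.mem_filter.1 hi).1
      rwa [hRR a ha] at this
    have hXTR : ∀ a ∈ P, ∀ T : Finset (Fin 4), XT X T a ⊆ (R x0)ᶜ := by
      intro a ha T i hi
      obtain ⟨t, -, hi⟩ := Finset.mem_biUnion.1 hi
      exact hXR a ha t hi
    have hdisjP : ∀ a ∈ P, ∀ t t' : Fin 4, t ≠ t' → Disjoint (X t a) (X t' a) :=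
      fun a ha => hdisj a (hPF a ha)
    have hagreeP : ∀ a ∈ P, ∀ b ∈ P, ∀ i ∈ R x0, a i = b i := by
      intro a ha b hb i hi
      rw [(hkey a ha).2.1 i hi, (hkey b hb).2.1 i hi]
    have hunP : ∀ a ∈ P, XT X Finset.univ a = (R x0)ᶜ := by
      intro a ha
      have := hun a (hPF a ha)
      rw [hRR a ha] at this
      simp only [XT, hX, hRR a ha]
      exact this
    have hcards : ∀ a ∈ P, ∀ b ∈ P, ∀ t, (X t a).card = (X t b).card := by
      intro a ha b hb t
      have ha' := hPF a ha
      have hb' := hPF b hb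
      have hab : R a = R b := (hRR a ha).trans (hRR b hb).symm
      fin_cases t
      · exact (hc0 a ha').trans (hc0 b hb').symm
      · exact (hc1 a ha').trans (hc1 b hb').symm
      · exact (hc2 a ha').trans (hc2 b hb').symm
      · refine (hc3 a ha').trans ?_
        rw [hab]
        exact (hc3 b hb').symm
    -- the hybrid argument
    have hyb : ∀ a ∈ P, ∀ b ∈ P, ∀ T : Finset (Fin 4),
        (∀ i ∈ XT X T b, i ∉ XT X T a → a i = b i) →
        ∃ l, G.AccComp (glue (XT X T b) b a) l ∧
          ∀ i, 1 ≤ cnt G l i → i ∉ R x0 → i ∈ XT X T b ∨ i ∈ XT X Tᶜ a := by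
      intro a ha b hb T hT
      let q : Fin 4 → List G.E := fun t => if t ∈ T then p b t else p a t
      have hq : ∀ t : Fin 4, G.IsWalk (u a t.castSucc) (u a t.succ) (q t) := by
        intro t
        simp only [q]
        split_ifs with h
        · rw [hu a ha b hb]; exact hwalk b (hPF b hb) t
        · exact hwalk a (hPF a ha) t
      have hag : ∀ t : Fin 4, G.Agrees (glue (XT X T b) b a) (q t) := by
        intro t e he i v hl
        by_cases htT : t ∈ T
        · simp only [q, if_pos htT] at he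
          have h1 : b i = v := hagr b (hPF b hb) t e he i v hl
          by_cases hiR : i ∈ R x0
          · have h2 : i ∉ XT X T b := fun h => (Finset.mem_compl.1 (hXTR b hb T h)) hiR
            simp only [glue, if_neg h2]
            rw [hagreeP a ha b hb i hiR, h1]
          · have h2 : i ∈ X t b := by
              refine Finset.mem_filter.2 ⟨?_, (cnt_pos G _ _).2 ⟨e, he, v, hl⟩⟩
              rw [hRR b hb]; exact Finset.mem_compl.2 hiR
            have h3 : i ∈ XT X T b := Finset.mem_biUnion.2 ⟨t, htT, h2⟩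
            simp only [glue, if_pos h3]
            exact h1
        · simp only [q, if_neg htT] at he
          have h1 : a i = v := hagr a (hPF a ha) t e he i v hl
          by_cases h3 : i ∈ XT X T b
          · simp only [glue, if_pos h3]
            have hiR : i ∉ R x0 := Finset.mem_compl.1 (hXTR b hb T h3)
            have h2 : i ∈ X t a := by
              refine Finset.mem_filter.2 ⟨?_, (cnt_pos G _ _).2 ⟨e, he, v, hl⟩⟩
              rw [hRR a ha]; exact Finset.mem_compl.2 hiR
            have h4 : i ∉ XT X T a := by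
              intro h4
              obtain ⟨t', ht', h5⟩ := Finset.mem_biUnion.1 h4
              have hne : t ≠ t' := by rintro rfl; exact htT ht'
              exact (Finset.disjoint_left.1 (hdisjP a ha t t' hne)) h2 h5
            rw [← hT i h3 h4, h1]
          · simp only [glue, if_neg h3]
            exact h1
      refine ⟨q 0 ++ (q 1 ++ (q 2 ++ q 3)), ⟨?_, ?_⟩, ?_⟩
      · rw [isWalk_append]
        refine ⟨u a 1, ?_, ?_⟩
        · rw [← hu0 a (hPF a ha)]; exact hq 0
        · rw [isWalk_append]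
          refine ⟨u a 2, hq 1, ?_⟩
          rw [isWalk_append]
          refine ⟨u a 3, hq 2, ?_⟩
          rw [← hu4 a (hPF a ha)]; exact hq 3
      · rw [agrees_append, agrees_append, agrees_append]
        exact ⟨hag 0, hag 1, hag 2, hag 3⟩
      · intro i hi hiR
        rw [cnt_append, cnt_append, cnt_append] at hi
        have hex : ∃ t, 1 ≤ cnt G (q t) i := by
          by_contra hcon
          push Not at hcon
          have z0 := hcon 0
          have z1 := hcon 1
          have z2 := hcon 2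
          have z3 := hcon 3
          omega
        obtain ⟨t, ht⟩ := hex
        by_cases htT : t ∈ T
        · left
          simp only [q, if_pos htT] at ht
          refine Finset.mem_biUnion.2 ⟨t, htT, Finset.mem_filter.2 ⟨?_, ht⟩⟩
          rw [hRR b hb]; exact Finset.mem_compl.2 hiR
        · right
          simp only [q, if_neg htT] at ht
          refine Finset.mem_biUnion.2 ⟨t, Finset.mem_compl.2 htT, Finset.mem_filter.2 ⟨?_, ht⟩⟩
          rw [hRR a ha]; exact Finset.mem_compl.2 hiR
    have hcolour : ∀ a ∈ P, ∀ T : Finset (Fin 4), χ (XT X T a) = χ (XT X T x0) := by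
      intro a ha T
      exact congrFun (congrArg Prod.snd (Finset.mem_filter.1 ha).2) T
    have hexch : ∀ a ∈ P, ∀ b ∈ P, ∀ T : Finset (Fin 4),
        (∀ i ∈ XT X T b, i ∉ XT X T a → a i = b i) → XT X T a = XT X T b := by
      intro a ha b hb T hT
      obtain ⟨l, hacc, hl⟩ := hyb a ha b hb T hT
      have hun := unread_small G F hNR hsound _ l hacc
      have hsub : XT X T a \ XT X T b ⊆ Finset.univ.filter (fun i => cnt G l i = 0) := by
        intro i hi
        rw [Finset.mem_sdiff] at hi
        rw [Finset.mem_filter]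
        refine ⟨Finset.mem_univ _, ?_⟩
        by_contra hne
        have hiR : i ∉ R x0 := Finset.mem_compl.1 (hXTR a ha T hi.1)
        rcases hl i (Nat.one_le_iff_ne_zero.2 hne) hiR with h | h
        · exact hi.2 h
        · obtain ⟨t, ht, h1⟩ := Finset.mem_biUnion.1 hi.1
          obtain ⟨t', ht', h2⟩ := Finset.mem_biUnion.1 h
          have hne : t ≠ t' := by
            rintro rfl
            exact (Finset.mem_compl.1 ht') ht
          exact (Finset.disjoint_left.1 (hdisjP a ha t t' hne)) h1 h2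
      have hc1 : (XT X T a \ XT X T b).card ≤ 2 * c := (Finset.card_le_card hsub).trans hun.le
      have hc2 : (XT X T b \ XT X T a).card ≤ 2 * c := by
        have h1 := Finset.card_sdiff_add_card_inter (XT X T a) (XT X T b)
        have h2 := Finset.card_sdiff_add_card_inter (XT X T b) (XT X T a)
        have h3 := card_XT hdisjP ha hb (fun t => hcards a ha b hb t) T
        rw [Finset.inter_comm] at h2
        omega
      exact hχ _ _ hc1 hc2 ((hcolour a ha T).trans (hcolour b hb T).symm)
    have hrect : ∀ a ∈ P, ∀ b ∈ P, ∀ T : Finset (Fin 4), XT X T a = XT X T b →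
        glue (XT X T b) b a ∈ F := by
      intro a ha b hb T hT
      obtain ⟨l, hacc, -⟩ := hyb a ha b hb T (fun i hi hi' => absurd (hT ▸ hi) hi')
      exact hsound _ l hacc
    exact hBd (R x0).card (hRk x0 hx0)
      { P := P
        R := R x0
        X := X
        hR := rfl
        agree := hagreeP
        disj := hdisjP
        union := hunP
        card0 := fun a ha => hc0 a (hPF a ha)
        card1 := fun a ha => hc1 a (hPF a ha)
        card2 := fun a ha => hc2 a (hPF a ha)
        card3 := fun a ha => by rw [← hRR a ha]; exact hc3 a (hPF a ha)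
        exch := hexch
        rect := hrect }
  calc Fast.card ≤ Bd * (Fast.image key).card := Finset.card_le_mul_card_image Fast Bd hfib
    _ ≤ Bd * KS.card := Nat.mul_le_mul_left _ (Finset.card_le_card himg)
    _ ≤ Bd * (((∑ r ∈ range (k + 1), n.choose r) * 2 ^ k * Fintype.card V ^ 3) *
          ((∑ i ∈ range (2 * (2 * c) + 1), n.choose i) + 1) ^ 16) :=
        Nat.mul_le_mul_left _ hKS
    _ = _ := by ring


/-! ### numerics -/

theorem col_num (n : ℕ) (hn : 10 ^ 13 ≤ n) :
    (((∑ i ∈ range (2 * (2 * (n / 10 ^ 13)) + 1), n.choose i) + 1 : ℕ) : ℝ) ^ 16 ≤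
      (2 : ℝ) ^ ((n : ℝ) / 10 ^ 6) := by
  have hlog := Pool.Agent.H554R2.Compl.logb_balls (n := n) (w := n / 1000000000000)
    (le_trans (by norm_num) hn) rfl
  obtain ⟨w, hw⟩ : ∃ w, w = n / 1000000000000 := ⟨_, rfl⟩
  rw [← hw] at hlog
  have hw1 : 1 ≤ w := by omega
  set S : ℕ := ∑ j ∈ range w, n.choose j with hS
  have hSpos : 1 ≤ S := by
    have h1 : n.choose 0 ≤ S := by
      rw [hS]
      exact single_le_sum (f := fun j => n.choose j) (fun _ _ => Nat.zero_le _)
        (mem_range.2 (by omega))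
    simpa using h1
  have hS' : (∑ i ∈ range (2 * (2 * (n / 10 ^ 13)) + 1), n.choose i) + 1 ≤ 2 * S := by
    have h1 : ∑ i ∈ range (2 * (2 * (n / 10 ^ 13)) + 1), n.choose i ≤ S := by
      refine sum_le_sum_of_subset (fun i hi => ?_)
      rw [mem_range] at hi ⊢
      omega
    omega
  have hSR : (0 : ℝ) < S := by exact_mod_cast hSpos
  have h2 : (S : ℝ) ≤ (2 : ℝ) ^ (1 / 1000000000 * (n : ℝ)) :=
    (Real.logb_le_iff_le_rpow (by norm_num) hSR).1 hlog
  have h3 : (((∑ i ∈ range (2 * (2 * (n / 10 ^ 13)) + 1), n.choose i) + 1 : ℕ) : ℝ) ≤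
      (2 : ℝ) ^ (1 + 1 / 1000000000 * (n : ℝ)) := by
    calc (((∑ i ∈ range (2 * (2 * (n / 10 ^ 13)) + 1), n.choose i) + 1 : ℕ) : ℝ)
        ≤ ((2 * S : ℕ) : ℝ) := by exact_mod_cast hS'
      _ = 2 * (S : ℝ) := by push_cast; ring
      _ ≤ 2 * (2 : ℝ) ^ (1 / 1000000000 * (n : ℝ)) := by linarith
      _ = (2 : ℝ) ^ (1 + 1 / 1000000000 * (n : ℝ)) := by
          rw [Real.rpow_add (by norm_num), Real.rpow_one]
  have hnR : (10000000000000 : ℝ) ≤ n := by
    have : (10000000000000 : ℕ) ≤ n := le_trans (by norm_num) hn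
    exact_mod_cast this
  calc (((∑ i ∈ range (2 * (2 * (n / 10 ^ 13)) + 1), n.choose i) + 1 : ℕ) : ℝ) ^ 16
      ≤ ((2 : ℝ) ^ (1 + 1 / 1000000000 * (n : ℝ))) ^ 16 := pow_le_pow_left₀ (Nat.cast_nonneg _) h3 16
    _ = (2 : ℝ) ^ ((1 + 1 / 1000000000 * (n : ℝ)) * 16) := by
        rw [Real.rpow_mul (by norm_num)]
        norm_cast
    _ ≤ (2 : ℝ) ^ ((n : ℝ) / 10 ^ 6) := by
        refine Real.rpow_le_rpow_of_exponent_le (by norm_num) ?_
        have e : (n : ℝ) / 10 ^ 6 = 1 / 1000000 * n := by ring
        rw [e]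
        linarith

/-- The criterion, with full reading instead of isolation. -/
theorem full_criterion : ∃ n0 : ℕ, ∀ n ≥ n0, ∀ F : Finset (Fin n → Bool),
    Pool.Agent.H538R2.SRO.NoRect F (n / 2000) → Pool.Agent.H538R2.SRO.NoRect F (n / 10 ^ 13) →
    ∀ (V : Type) [Fintype V] (G : Pool.Agent.H538R2.SRO.NBP (Fin n) V),
      (∀ x l, G.AccComp x l → x ∈ F) →
    ∀ Fast : Finset (Fin n → Bool),
    (∀ x ∈ Fast, ∃ l, G.AccComp x l ∧ (∀ i, 1 ≤ cnt G l i) ∧
      ((univ.filter (fun i => 2 ≤ cnt G l i)).card ≤ n / 10 ^ 8 ∨ G.tests l ≤ n + n / 10 ^ 8)) →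
    (Fast.card : ℝ) ≤ (Fintype.card V : ℝ) ^ 3 * (2 : ℝ) ^ ((1 - 13 / 10 ^ 6) * (n : ℝ)) := by
  obtain ⟨n2, hn2⟩ := fam_small
  obtain ⟨n3, hn3⟩ := choose_num
  refine ⟨max n2 (max n3 (10 ^ 13)), ?_⟩
  intro n hn F hF hF' V _ G hsound Fast hfast
  have h2 : n2 ≤ n := le_trans (le_max_left _ _) hn
  have h3 : n3 ≤ n := le_trans (le_trans (le_max_left _ _) (le_max_right _ _)) hn
  have h4 : 10 ^ 13 ≤ n := le_trans (le_trans (le_max_right _ _) (le_max_right _ _)) hn
  have h4' : 10000 ≤ n := le_trans (by norm_num) h4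
  set Bd : ℕ := ⌊(2 : ℝ) ^ ((1 - 15 / 10 ^ 6) * (n : ℝ))⌋₊ with hBd
  have hmain := full_card (n := n) (ℓ := 497 * n / 2000) (k := n / 10 ^ 8) (c := n / 10 ^ 13) F V G
    (by omega) (by omega) hF' hsound Bd (by
      intro r hr fam
      exact Nat.le_floor (hn2 n h2 _ r F fam rfl hr hF)) Fast hfast
  have hB : (Bd : ℝ) ≤ (2 : ℝ) ^ ((1 - 15 / 10 ^ 6) * (n : ℝ)) := Nat.floor_le (by positivity)
  have hc := hn3 n h3
  have hcol := col_num n h4
  have hmain' : (Fast.card : ℝ) ≤ (((∑ r ∈ range (n / 10 ^ 8 + 1), n.choose r : ℕ) : ℝ) *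
      2 ^ (n / 10 ^ 8) * (Fintype.card V : ℝ) ^ 3) *
      (((∑ i ∈ range (2 * (2 * (n / 10 ^ 13)) + 1), n.choose i) + 1 : ℕ) : ℝ) ^ 16 * Bd := by
    exact_mod_cast hmain
  have hV : (0 : ℝ) ≤ (Fintype.card V : ℝ) ^ 3 := by positivity
  calc (Fast.card : ℝ) ≤ _ := hmain'
    _ ≤ ((2 : ℝ) ^ ((n : ℝ) / 10 ^ 6) * (Fintype.card V : ℝ) ^ 3) * (2 : ℝ) ^ ((n : ℝ) / 10 ^ 6) *
        (2 : ℝ) ^ ((1 - 15 / 10 ^ 6) * (n : ℝ)) := by
        refine mul_le_mul (mul_le_mul (mul_le_mul_of_nonneg_right hc hV) hcol (by positivity)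
          (by positivity)) hB (Nat.cast_nonneg _) (by positivity)
    _ = (Fintype.card V : ℝ) ^ 3 * ((2 : ℝ) ^ ((n : ℝ) / 10 ^ 6) * (2 : ℝ) ^ ((n : ℝ) / 10 ^ 6) *
        (2 : ℝ) ^ ((1 - 15 / 10 ^ 6) * (n : ℝ))) := by ring
    _ = _ := by
        rw [← Real.rpow_add (by norm_num), ← Real.rpow_add (by norm_num)]
        congr 2
        ring

end Pool.Agent.H554R2.Gap.Full

namespace Pool.Agent.H554R2.Gap

open Finset Pool.Agent.H554R2.Sem Pool.Agent.H554R2.Cnf

/-- G2: the criterion `Cnf.criterion` (Cnf/Crit.lean), with the hypothesis that the fast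
computations read all variables instead of isolation, in the model `Sem.NBP`. -/
theorem lower_full : ∃ n0 : ℕ, ∀ n ≥ n0, ∀ C : Finset (Pt n), NoRect C (2 ^ (n / 10 ^ 13)) →
    ∀ P : NBP (Fin n), (∀ x l, P.Accepting x l → x ∈ C) →
    ∀ G : Finset (Pt n), (∀ x ∈ G, ∃ l, P.Accepting x l ∧ unread P l = ∅ ∧ Fast (n / 10 ^ 8) P l) →
      (G.card : ℝ) ≤ ((Fintype.card P.State : ℝ) + 1) ^ 3 *
        (2 : ℝ) ^ ((1 - 13 / 10 ^ 6) * (n : ℝ)) := by
  obtain ⟨n0, hn0⟩ := Full.full_criterion
  refine ⟨n0, fun n hn C hR P hsound G hG => ?_⟩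
  classical
  have hR1 : Pool.Agent.H538R2.SRO.NoRect C (n / 2000) := by
    refine noRect_of (noRect_le ?_ hR)
    exact Nat.pow_le_pow_right (by norm_num) (Nat.div_le_div_left (by norm_num) (by norm_num))
  have hR2 : Pool.Agent.H538R2.SRO.NoRect C (n / 10 ^ 13) := noRect_of hR
  set b : Empty → Bool := fun e => e.elim with hb
  set Q : NBP (Empty ⊕ Fin n) := Pool.Agent.H554R2.Compl.lift P with hQ
  have hcrit := hn0 n hn C hR1 hR2 (Option Q.State) (toE Q b) (by
      intro x l hl
      obtain ⟨h1, h2⟩ := toE_sound Q b x l Q.start hl.1 hl.2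
      exact hsound x _ ((Pool.Agent.H554R2.Compl.lift_acc P b x _).1 ⟨h1, h2⟩)) G (by
      intro x hx
      obtain ⟨l, hacc, hun, hf⟩ := hG x hx
      have hacc' := (Pool.Agent.H554R2.Compl.lift_acc P b x l).2 hacc
      obtain ⟨l', h1, h2, h3⟩ := toE_complete Q b x l Q.start hacc'.1 hacc'.2
      have hcnt : ∀ i, Fast.cnt (toE Q b) l' i = (l.filterMap P.query).count i := by
        intro i
        rw [toE_cnt, h3]
        have := Pool.Agent.H554R2.Compl.lift_queries P l
        rw [← this]
      refine ⟨l', ⟨h1, h2⟩, ?_, ?_⟩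
      · intro i
        rw [hcnt, Nat.one_le_iff_ne_zero, ← Nat.pos_iff_ne_zero, List.count_pos_iff]
        by_contra hi
        have h4 : i ∈ unread P l := by
          unfold unread
          rw [mem_filter]
          exact ⟨mem_univ _, hi⟩
        rw [hun] at h4
        exact absurd h4 (notMem_empty i)
      · rcases hf with h | h
        · left
          refine le_trans (le_of_eq ?_) h
          congr 1
          ext i
          rw [mem_filter, mem_filter, hcnt]
        · right
          rw [toE_tests, h3]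
          have := Pool.Agent.H554R2.Compl.lift_queries P l
          rw [this]
          exact h)
  have hcard : (Fintype.card (Option Q.State) : ℝ) = (Fintype.card P.State : ℝ) + 1 := by
    rw [Fintype.card_option]
    push_cast
    rfl
  rw [hcard] at hcrit
  exact hcrit

end Pool.Agent.H554R2.Gap
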