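import Mathlib
import Pool.Agent.H554R2.Gap.Defs

/-!
# Few unread variables
-/

set_option autoImplicit false

open Finset

namespace Pool.Agent.H554R2.Gap

open Pool.Agent.H554R2.Sem Pool.Agent.H554R2.Cnf

theorem unread_run {n : ℕ} (P : NBP (Fin n)) (x y : Pt n) (t : Option P.State) :
    ∀ l : List P.State, (∀ q ∈ l, ∀ v, P.query q = some v → y v = x v) → P.Run x l t →
      P.Run y l t
  | [], _, _ => trivial
  | q :: l, h, hr => by
    refine ⟨?_, unread_run P x y t l (fun q' hq' => h q' (List.mem_cons_of_mem _ hq')) hr.2⟩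
    have h1 := hr.1
    unfold NBP.Step at h1 ⊢
    have h2 := h q List.mem_cons_self
    cases hq : P.query q with
    | none =>
      rw [hq] at h1
      exact h1
    | some v =>
      rw [hq] at h1
      have h3 := h2 v hq
      show P.edge q (y v) (hd l t)
      rw [h3]
      exact h1

open Classical in
theorem unread_card {n : ℕ} (x : Pt n) (U V W : Finset (Fin n)) (hVU : V ⊆ U) (hVW : V ⊆ W) :
    2 ^ V.card ≤ (((univ : Finset (Pt n)).filter (fun y => ∀ i, i ∉ U → y i = x i)).image
      (mask W)).card := by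
  rw [← card_powerset]
  refine card_le_card_of_injOn
    (fun B => mask W (fun i => if i ∈ U then decide (i ∈ B) else x i)) ?_ ?_
  · intro B _
    rw [Finset.mem_coe, mem_image]
    refine ⟨_, ?_, rfl⟩
    rw [mem_filter]
    refine ⟨mem_univ _, fun i hi => ?_⟩
    exact if_neg hi
  · intro B hB B' hB' h
    rw [Finset.mem_coe, mem_powerset] at hB hB'
    have key : ∀ i ∈ V, (i ∈ B ↔ i ∈ B') := by
      intro i hi
      have h1 := congrFun h i
      simp only [mask, if_pos (hVW hi), if_pos (hVU hi)] at h1
      exact decide_eq_decide.1 h1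
    ext i
    constructor
    · intro hi
      exact (key i (hB hi)).1 hi
    · intro hi
      exact (key i (hB' hi)).2 hi

/-- G3a: few unread variables (the subcube of the unread variables is accepted) -/
theorem few_unread {n e : ℕ} (C : Finset (Pt n)) (hC : NoRect C (2 ^ e)) (P : NBP (Fin n))
    (hP : ∀ x l, P.Accepting x l → x ∈ C) (x : Pt n) (l : List P.State) (hl : P.Accepting x l) :
    (unread P l).card ≤ 2 * e + 1 := by
  classical
  by_contra hcon
  obtain ⟨U, hU⟩ : ∃ U, U = unread P l := ⟨_, rfl⟩
  rw [← hU] at hcon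
  obtain ⟨A, hAU, hA⟩ : ∃ A ⊆ U, A.card = e + 1 := exists_subset_card_eq (by omega)
  have hsub : ∀ y : Pt n, (∀ i, i ∉ U → y i = x i) → y ∈ C := by
    intro y hy
    refine hP y l ⟨hl.1, unread_run P x y none l ?_ hl.2⟩
    intro q hq v hv
    apply hy
    rw [hU]
    unfold unread
    rw [mem_filter]
    rintro ⟨_, h⟩
    apply h
    rw [List.mem_filterMap]
    exact ⟨q, hq, hv⟩
  have h := hC A ((univ : Finset (Pt n)).filter (fun y => ∀ i, i ∉ U → y i = x i)) (by
    intro y hy z hz
    rw [mem_filter] at hy hz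
    apply hsub
    intro i hi
    unfold merge
    split_ifs
    · exact hy.2 i hi
    · exact hz.2 i hi)
  have h1 := unread_card x U A A hAU (Subset.refl _)
  have h2 := unread_card x U (U \ A) Aᶜ sdiff_subset (by
    intro i hi
    rw [mem_sdiff] at hi
    rw [mem_compl]
    exact hi.2)
  rw [hA] at h1
  have h3 : (U \ A).card = U.card - A.card := card_sdiff_of_subset hAU
  have h4 : 2 ^ (e + 1) ≤ 2 ^ (U \ A).card := Nat.pow_le_pow_right (by norm_num) (by omega)
  have h5 : 2 ^ e < 2 ^ (e + 1) := Nat.pow_lt_pow_right (by norm_num) (by omega)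
  rcases h with h | h
  · omega
  · omega

end Pool.Agent.H554R2.Gap
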