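import Mathlib
import Pool.Agent.H554R2.Gap.Defs
import Pool.Agent.H554R2.Gap.Full
import Pool.Agent.H554R2.Gap.Unread
import Pool.Agent.H554R2.Gap.Ext
import Pool.Agent.H554R2.Sem.Num

/-!
# Gap versions: from full reading to few unread variables
-/

set_option autoImplicit false

open Finset

namespace Pool.Agent.H554R2.Gap

open Pool.Agent.H554R2.Sem Pool.Agent.H554R2.Cnf

theorem g3c_noRect {n r r' : ℕ} {F : Finset (Pt n)} (hrr : r ≤ r') (h : NoRect F r) :
    NoRect F r' := by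
  intro A K hK
  rcases h A K hK with h1 | h1
  · exact Or.inl (lt_of_lt_of_le h1 hrr)
  · exact Or.inr (lt_of_lt_of_le h1 hrr)

/-- the sets with at most `d` elements -/
def g3c_T (n d : ℕ) : Finset (Finset (Fin n)) := univ.filter (fun U => U.card ≤ d)

theorem g3c_card (n d : ℕ) : (g3c_T n d).card = ∑ k ∈ range (d + 1), n.choose k := by
  have h1 : g3c_T n d = (range (d + 1)).biUnion (fun k => powersetCard k (univ : Finset (Fin n))) := by
    ext U
    rw [g3c_T, mem_filter, mem_biUnion]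
    constructor
    · rintro ⟨_, h⟩
      exact ⟨U.card, mem_range.2 (Nat.lt_succ_of_le h), mem_powersetCard.2 ⟨subset_univ _, rfl⟩⟩
    · rintro ⟨k, hk, hU⟩
      refine ⟨mem_univ _, ?_⟩
      rw [(mem_powersetCard.1 hU).2]
      exact Nat.lt_succ_iff.1 (mem_range.1 hk)
  rw [h1, card_biUnion]
  · refine sum_congr rfl fun k _ => ?_
    rw [card_powersetCard, card_univ, Fintype.card_fin]
  · intro i _ j _ hij
    rw [Function.onFun, Finset.disjoint_left]
    intro U hU hU'
    exact hij ((mem_powersetCard.1 hU).2.symm.trans (mem_powersetCard.1 hU').2)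

theorem g3c_T_le (n d : ℕ) : ((g3c_T n d).card : ℝ) ≤
    (2 : ℝ) ^ (30 * (d : ℝ) + (n : ℝ) / 2 ^ 29) := by
  rw [g3c_card]
  set x : ℝ := 1 / 2 ^ 30 with hx
  have hx0 : 0 < x := by positivity
  have h1 := num_sum_le x hx0 (by rw [hx]; norm_num) n d
  have h2 : 1 + x ≤ (2 : ℝ) ^ (2 * x) := by
    rw [Real.rpow_def_of_pos (by norm_num : (0 : ℝ) < 2)]
    have h3 := Real.add_one_le_exp (Real.log 2 * (2 * x))
    have h4 := Real.log_two_gt_d9
    nlinarith
  have h5 : (1 + x) ^ n ≤ (2 : ℝ) ^ ((n : ℝ) / 2 ^ 29) := by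
    calc (1 + x) ^ n ≤ ((2 : ℝ) ^ (2 * x)) ^ n := by gcongr
      _ = (2 : ℝ) ^ (2 * x * n) := by
        rw [← Real.rpow_natCast, ← Real.rpow_mul (by norm_num)]
      _ = _ := by
        congr 1
        rw [hx]
        ring
  have h6 : x ^ d = (2 : ℝ) ^ (-(30 * (d : ℝ))) := by
    rw [Real.rpow_neg (by norm_num), hx, one_div, inv_pow, ← pow_mul]
    congr 1
    rw [← Real.rpow_natCast]
    congr 1
    push_cast
    ring
  rw [h6] at h1
  have h7 : (2 : ℝ) ^ (30 * (d : ℝ) + (n : ℝ) / 2 ^ 29) =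
      (2 : ℝ) ^ (30 * (d : ℝ)) * (2 : ℝ) ^ ((n : ℝ) / 2 ^ 29) := Real.rpow_add (by norm_num) _ _
  rw [h7]
  have h8 : (2 : ℝ) ^ (30 * (d : ℝ)) * (2 : ℝ) ^ (-(30 * (d : ℝ))) = 1 := by
    rw [← Real.rpow_add (by norm_num), add_neg_cancel, Real.rpow_zero]
  have hp : (0 : ℝ) < (2 : ℝ) ^ (30 * (d : ℝ)) := by positivity
  set Sg : ℝ := ((∑ k ∈ range (d + 1), n.choose k : ℕ) : ℝ)
  calc Sg = (2 : ℝ) ^ (30 * (d : ℝ)) * ((2 : ℝ) ^ (-(30 * (d : ℝ))) * Sg) := by
        rw [← mul_assoc, h8, one_mul]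
    _ ≤ (2 : ℝ) ^ (30 * (d : ℝ)) * (1 + x) ^ n := mul_le_mul_of_nonneg_left h1 hp.le
    _ ≤ _ := mul_le_mul_of_nonneg_left h5 hp.le

/-- the extended computation reads everything and is fast -/
theorem g3c_ext {n e k : ℕ} (P : NBP (Fin n)) (U : Finset (Fin n)) (x : Pt n) (l : List P.State)
    (hl : P.Accepting x l) (hU : unread P l = U) (hf : Fast e P l) (hk : e + U.card ≤ k) :
    ∃ l', (ext P U.toList).Accepting x l' ∧ unread (ext P U.toList) l' = ∅ ∧
      Fast k (ext P U.toList) l' := by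
  obtain ⟨l', h1, h2⟩ := ext_complete P U.toList x l hl
  refine ⟨l', h1, ?_, ?_⟩
  · unfold unread
    rw [h2, filter_eq_empty_iff]
    intro i _ hi
    apply hi
    rw [List.mem_append, Finset.mem_toList, ← hU]
    by_cases h : i ∈ l.filterMap P.query
    · exact Or.inl h
    · right
      exact mem_filter.2 ⟨mem_univ _, h⟩
  · unfold Fast at hf ⊢
    rw [h2]
    rcases hf with hf | hf
    · left
      refine (card_le_card ?_).trans (hf.trans (by omega))
      intro i hi
      rw [mem_filter] at hi ⊢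
      refine ⟨hi.1, ?_⟩
      have h3 := hi.2
      rw [List.count_append] at h3
      by_cases h : i ∈ U
      · have h4 : i ∉ l.filterMap P.query := by
          rw [← hU] at h
          exact (mem_filter.1 h).2
        rw [List.count_eq_zero_of_not_mem h4,
          List.count_eq_one_of_mem (Finset.nodup_toList U) (Finset.mem_toList.2 h)] at h3
        omega
      · rw [List.count_eq_zero_of_not_mem (fun h' => h (Finset.mem_toList.1 h')), add_zero] at h3
        exact h3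
    · right
      rw [List.length_append, Finset.length_toList]
      omega

theorem g3c_state {n : ℕ} (P : NBP (Fin n)) (U : Finset (Fin n)) :
    Fintype.card (ext P U.toList).State = Fintype.card P.State + (U.card + 1) := by
  have h : Fintype.card (P.State ⊕ Fin (U.toList.length + 1)) =
      Fintype.card P.State + (U.card + 1) := by
    rw [Fintype.card_sum, Fintype.card_fin, Finset.length_toList]
  rw [← h]
  exact Fintype.card_congr (Equiv.refl _)

/-- G3c: from G2, G3a, G3b by the pigeonhole principle on the set of the unread variables -/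
theorem lower_gap : ∃ D0 : ℕ, 0 < D0 ∧ ∀ n ≥ D0, ∀ C : Finset (Pt n), NoRect C (2 ^ (n / D0)) →
    ∀ P : NBP (Fin n), (∀ x l, P.Accepting x l → x ∈ C) →
    ∀ G : Finset (Pt n), (∀ x ∈ G, ∃ l, P.Accepting x l ∧ Fast (n / D0) P l) →
      2 ^ n ≤ 2 ^ (n / D0) * G.card → 2 ^ (n / D0) ≤ Fintype.card P.State := by
  classical
  obtain ⟨n0, hfull⟩ := lower_full
  refine ⟨10 ^ 13 + n0, by positivity, ?_⟩
  intro n hn C hC P hP G hG hcard
  have hn13 : 10 ^ 13 ≤ n := le_trans (Nat.le_add_right _ _) hn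
  have hnn0 : n0 ≤ n := le_trans (Nat.le_add_left _ _) hn
  set e : ℕ := n / (10 ^ 13 + n0) with he
  have he13 : e ≤ n / 10 ^ 13 := Nat.div_le_div_left (Nat.le_add_right _ _) (by positivity)
  have he8 : e ≤ n / 100000000 := he13.trans (Nat.div_le_div_left (by norm_num) (by norm_num))
  have hk : e + (2 * e + 1) ≤ n / 10 ^ 8 := by omega
  by_contra hcon
  push Not at hcon
  choose! l hl hfast using hG
  have hU : ∀ x ∈ G, unread P (l x) ∈ g3c_T n (2 * e + 1) := by
    intro x hx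
    rw [g3c_T, mem_filter]
    exact ⟨mem_univ _, few_unread C hC P hP x (l x) (hl x hx)⟩
  set M : ℝ := ((2 : ℝ) ^ (e : ℝ) + 2 * e + 2) ^ 3 * (2 : ℝ) ^ ((1 - 13 / 10 ^ 6) * (n : ℝ))
    with hM
  have hs : (Fintype.card P.State : ℝ) + 1 ≤ (2 : ℝ) ^ (e : ℝ) := by
    rw [Real.rpow_natCast]
    exact_mod_cast hcon
  have hfib : ∀ U ∈ g3c_T n (2 * e + 1),
      ((G.filter (fun x => unread P (l x) = U)).card : ℝ) ≤ M := by
    intro U hUT
    have hUc : U.card ≤ 2 * e + 1 := (mem_filter.1 hUT).2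
    have h1 := hfull n hnn0 C (g3c_noRect (Nat.pow_le_pow_right (by norm_num) he13) hC)
      (ext P U.toList) (fun x l' hl' => by
        obtain ⟨l'', hl''⟩ := ext_sound P U.toList x l' hl'
        exact hP x l'' hl'')
      (G.filter (fun x => unread P (l x) = U)) (fun x hx => by
        rw [mem_filter] at hx
        exact g3c_ext P U x (l x) (hl x hx.1) hx.2 (hfast x hx.1) (by omega))
    refine h1.trans ?_
    rw [hM]
    apply mul_le_mul_of_nonneg_right _ (by positivity)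
    rw [g3c_state]
    push_cast
    have h2 : (U.card : ℝ) ≤ 2 * e + 1 := by exact_mod_cast hUc
    apply pow_le_pow_left₀ (by positivity)
    linarith
  have hsum : (G.card : ℝ) ≤ (g3c_T n (2 * e + 1)).card * M := by
    rw [card_eq_sum_card_fiberwise hU]
    push_cast
    calc ∑ U ∈ g3c_T n (2 * e + 1), ((G.filter (fun x => unread P (l x) = U)).card : ℝ)
        ≤ ∑ _U ∈ g3c_T n (2 * e + 1), M := sum_le_sum hfib
      _ = _ := by rw [sum_const, nsmul_eq_mul]
  have hTle := g3c_T_le n (2 * e + 1)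
  have hM0 : 0 ≤ M := by positivity
  have hpow : (2 : ℝ) ^ (e : ℝ) + 2 * e + 2 ≤ (2 : ℝ) ^ ((e : ℝ) + 2) := by
    have h1 : e + 1 ≤ 2 ^ e := Nat.lt_two_pow_self
    have h2 : (e : ℝ) + 1 ≤ 2 ^ e := by exact_mod_cast h1
    rw [Real.rpow_add (by norm_num), Real.rpow_natCast]
    norm_num
    linarith
  have hM2 : M ≤ (2 : ℝ) ^ (3 * ((e : ℝ) + 2) + (1 - 13 / 10 ^ 6) * (n : ℝ)) := by
    rw [hM, Real.rpow_add (by norm_num)]
    apply mul_le_mul_of_nonneg_right _ (by positivity)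
    calc ((2 : ℝ) ^ (e : ℝ) + 2 * e + 2) ^ 3 ≤ ((2 : ℝ) ^ ((e : ℝ) + 2)) ^ 3 := by gcongr
      _ = (2 : ℝ) ^ (3 * ((e : ℝ) + 2)) := by
        rw [← Real.rpow_natCast, ← Real.rpow_mul (by norm_num)]
        congr 1
        push_cast
        ring
  have htot : (2 : ℝ) ^ (n : ℝ) ≤ (2 : ℝ) ^ ((e : ℝ) +
      ((30 * ((2 * e + 1 : ℕ) : ℝ) + (n : ℝ) / 2 ^ 29) +
        (3 * ((e : ℝ) + 2) + (1 - 13 / 10 ^ 6) * (n : ℝ)))) := by
    rw [Real.rpow_add (by norm_num) (e : ℝ), Real.rpow_add (by norm_num)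
      (30 * ((2 * e + 1 : ℕ) : ℝ) + (n : ℝ) / 2 ^ 29)]
    calc (2 : ℝ) ^ (n : ℝ) ≤ (2 : ℝ) ^ (e : ℝ) * (G.card : ℝ) := by
          rw [Real.rpow_natCast, Real.rpow_natCast]
          exact_mod_cast hcard
      _ ≤ (2 : ℝ) ^ (e : ℝ) * ((g3c_T n (2 * e + 1)).card * M) := by gcongr
      _ ≤ _ := by gcongr
  have hlin := (Real.rpow_le_rpow_left_iff (by norm_num : (1 : ℝ) < 2)).1 htot
  have heR : (e : ℝ) ≤ (n : ℝ) / 10 ^ 13 := by
    refine (Nat.cast_le.2 he13).trans ?_
    refine Nat.cast_div_le.trans ?_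
    norm_num
  have hnR : (10000000000000 : ℝ) ≤ (n : ℝ) := by
    have h : 10000000000000 ≤ n := by
      refine le_trans (le_of_eq ?_) hn13
      norm_num
    exact_mod_cast h
  push_cast at hlin
  norm_num at hlin heR
  linarith

end Pool.Agent.H554R2.Gap
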