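import Pool.Agent.H554R2.Gap.DetMain
import Pool.Agent.H554R2.Gap.Lower
import Pool.Agent.H554R2.Cnf.Crit

/-!
# Randomised algorithms with a constant number of queries against nondeterministic programs of
length `(1 + ε) n`
-/

set_option autoImplicit false

open Finset

namespace Pool.Agent.H554R2.Gap

open Pool.Agent.H554R2.Sem Pool.Agent.H554R2.Coin Pool.Agent.H554R2.Cnf

theorem nondet_main : ∃ D : ℕ, 0 < D ∧ ∀ n ≥ D,
    ∃ (J : ℕ) (T : Fin J → Finset (Fin n × Bool)), 0 < J ∧ J ≤ D * n ∧ (∀ j, (T j).card ≤ D) ∧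
      (∃ U : (Fin (2 * D) → Fin J) → BP (Fin n) Bool,
        (∀ ω, Fintype.card (U ω).State ≤ 9 * D ^ 2 ∧
          ∀ x, ∃ (l : List (Fin n)) (b : Bool), l.length ≤ 2 * D ^ 2 ∧ (U ω).Comp x l b) ∧
        (∀ x, (∀ j, Sat (T j) x) → ∀ ω, ∃ l, (U ω).Comp x l true) ∧
        (∀ x, J ≤ D * Nat.card {j // ¬ Sat (T j) x} →
          3 * Nat.card {ω // ∃ l, (U ω).Comp x l true} ≤ J ^ (2 * D))) ∧
      ∀ P : NBP (Fin n),
        (∀ x, J ≤ D * Nat.card {j // ¬ Sat (T j) x} → ¬ ∃ l, P.Accepting x l) →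
        Nat.card {x : Pt n // ∀ j, Sat (T j) x} ≤ 2 ^ (n / D) *
          Nat.card {x // (∀ j, Sat (T j) x) ∧ ∃ l, P.Accepting x l ∧ Fast (n / D) P l} →
        2 ^ (n / D) ≤ Fintype.card P.State := by
  classical
  obtain ⟨D0, hD0, hlow⟩ := lower_gap
  obtain ⟨D1, hD1, hcnf⟩ := exists_cnf_gap D0 D0 hD0 hD0
  obtain ⟨D, hD⟩ : ∃ D : ℕ, D = D1 + 8 * D0 := ⟨_, rfl⟩
  refine ⟨D, by omega, fun n hn => ?_⟩
  obtain ⟨J, T, hJ0, hJ, hT, hCc, hCR⟩ := hcnf n (by omega)
  have hT' : ∀ j, (T j).card ≤ D := fun j => (hT j).trans (by omega)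
  refine ⟨J, T, hJ0, hJ.trans (Nat.mul_le_mul_right _ (by omega)), hT',
    tests' (by omega) hJ0 T hT', ?_⟩
  intro P hP hG
  set C : Finset (Pt n) := univ.filter (fun x : Pt n =>
        D1 * (univ.filter (fun j => ¬ Sat (T j) x)).card < J) with hCdef
  have h1 : NoRect C (2 ^ (n / D0)) :=
    noRect_le (Nat.pow_le_pow_right (by norm_num)
      (Nat.div_le_div_left (by omega) hD0)) hCR
  have hsound : ∀ x l, P.Accepting x l → x ∈ C := by
    intro x l hl
    rw [hCdef, mem_filter]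
    refine ⟨mem_univ _, ?_⟩
    by_contra hcon
    push Not at hcon
    refine hP x ?_ ⟨l, hl⟩
    have h2 : Nat.card {j // ¬ Sat (T j) x} = (univ.filter (fun j => ¬ Sat (T j) x)).card := by
      rw [Nat.card_eq_fintype_card, Fintype.card_subtype]
    rw [h2]
    exact hcon.trans (Nat.mul_le_mul_right _ (by omega))
  set G : Finset (Pt n) := univ.filter (fun x => (∀ j, Sat (T j) x) ∧
    ∃ l, P.Accepting x l ∧ Fast (n / D) P l) with hGdef
  have hGc : Nat.card {x // (∀ j, Sat (T j) x) ∧ ∃ l, P.Accepting x l ∧ Fast (n / D) P l} =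
      G.card := by
    rw [Nat.card_eq_fintype_card, Fintype.card_subtype]
  set Z : Finset (Pt n) := univ.filter (fun x : Pt n => ∀ j, Sat (T j) x) with hZdef
  have hZ : Nat.card {x : Pt n // ∀ j, Sat (T j) x} = Z.card := by
    rw [Nat.card_eq_fintype_card, Fintype.card_subtype]
  rw [hGc, hZ] at hG
  have hle : n / D ≤ n / D0 := Nat.div_le_div_left (by omega) hD0
  have h3 : ∀ x ∈ G, ∃ l, P.Accepting x l ∧ Fast (n / D0) P l := by
    intro x hx
    obtain ⟨_, l, hl, hf⟩ := (mem_filter.1 hx).2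
    refine ⟨l, hl, ?_⟩
    rcases hf with hf | hf
    · exact Or.inl (hf.trans hle)
    · exact Or.inr (hf.trans (by omega))
  have hexp : (n / (4 * D0) + 1) + n / D ≤ n / D0 := by
    rw [Nat.le_div_iff_mul_le hD0]
    have h4 : 4 * D0 * (n / (4 * D0)) ≤ n := Nat.mul_div_le n (4 * D0)
    have h5 : D * (n / D) ≤ n := Nat.mul_div_le n D
    have h6 : 8 * D0 * (n / D) ≤ D * (n / D) := Nat.mul_le_mul_right _ (by omega)
    have h7 : (n / (4 * D0) + 1 + n / D) * D0 = D0 * (n / (4 * D0)) + D0 + D0 * (n / D) := by ring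
    have h8 : 4 * D0 * (n / (4 * D0)) = 4 * (D0 * (n / (4 * D0))) := by ring
    have h9 : 8 * D0 * (n / D) = 8 * (D0 * (n / D)) := by ring
    omega
  have h4 : 2 ^ n ≤ 2 ^ (n / D0) * G.card := by
    calc 2 ^ n ≤ 2 ^ (n / (4 * D0) + 1) * Z.card := hCc
      _ ≤ 2 ^ (n / (4 * D0) + 1) * (2 ^ (n / D) * G.card) := Nat.mul_le_mul_left _ hG
      _ = 2 ^ ((n / (4 * D0) + 1) + n / D) * G.card := by
          rw [← mul_assoc, ← pow_add]
      _ ≤ 2 ^ (n / D0) * G.card :=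
          Nat.mul_le_mul_right _ (Nat.pow_le_pow_right (by norm_num) hexp)
  exact (Nat.pow_le_pow_right (by norm_num) hle).trans (hlow n (by omega) C h1 P hsound G h3 h4)

end Pool.Agent.H554R2.Gap
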