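import Pool.Agent.H554R2.Gap.DetFinal
import Pool.Agent.H554R2.Coin.Final

/-!
# The randomised algorithm
-/

set_option autoImplicit false

open Finset

namespace Pool.Agent.H554R2.Gap

open Pool.Agent.H554R2.Sem Pool.Agent.H554R2.Coin Pool.Agent.H554R2.Cnf Pool.Agent.H554R2.Lin

/-- a program which checks several clauses -/
theorem clauses_program {n k : ℕ} (L : List (Finset (Fin n × Bool))) (hL : ∀ c ∈ L, c.card ≤ k) :
    ∃ U : BP (Fin n) Bool, Fintype.card U.State ≤ L.length * (k * 3 + 1) + 1 ∧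
      ∀ x, ∃ (l : List (Fin n)) (b : Bool), l.length ≤ L.length * k ∧ U.Comp x l b ∧
        (b = true ↔ ∀ c ∈ L, Sat c x) := by
  classical
  obtain ⟨P, hP1, hP2⟩ := or_list (n := n) (K := k) (S := k * 3 + 1) L
    (fun c x => ¬ Sat c x) (by
      intro c hc
      obtain ⟨U, hU1, hU2⟩ := clause_program c
      have hck := hL c hc
      refine ⟨Lin.BP.neg U, hU1.trans (by omega), fun x => ?_⟩
      obtain ⟨l, b, h1, h2, h3⟩ := hU2 x
      refine ⟨l, h1.trans hck, fun d hd => ?_⟩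
      have h4 : d = !b := by
        rcases b with _ | _ <;> rcases d with _ | _ <;> simp_all
      rw [h4]
      exact (neg_comp U x l b).2 h2)
  refine ⟨Lin.BP.neg P, hP1, fun x => ?_⟩
  obtain ⟨l, hl1, hl2⟩ := hP2 x
  refine ⟨l, decide (∀ c ∈ L, Sat c x), hl1, ?_, by simp⟩
  have h1 := hl2 (!(decide (∀ c ∈ L, Sat c x))) (by
    rw [Bool.not_eq_true', decide_eq_false_iff_not]
    push Not
    rfl)
  have h3 := (neg_comp P x l _).2 h1
  rwa [Bool.not_not] at h3

theorem pow_third (D : ℕ) (hD : 0 < D) : 3 * (1 - 1 / (D : ℝ)) ^ (2 * D) ≤ 1 := by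
  have hD' : (0 : ℝ) < D := by exact_mod_cast hD
  have hD1 : (1 : ℝ) ≤ D := by exact_mod_cast hD
  have h0 : 0 ≤ 1 - 1 / (D : ℝ) := by
    rw [sub_nonneg, div_le_one hD']; exact hD1
  have h1 : 1 - 1 / (D : ℝ) ≤ Real.exp (-(1 / (D : ℝ))) := by
    have := Real.add_one_le_exp (-(1 / (D : ℝ)))
    linarith
  have h2 : (1 - 1 / (D : ℝ)) ^ (2 * D) ≤ Real.exp (-2) := by
    calc (1 - 1 / (D : ℝ)) ^ (2 * D) ≤ (Real.exp (-(1 / (D : ℝ)))) ^ (2 * D) :=
          pow_le_pow_left₀ h0 h1 _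
      _ = Real.exp (-2) := by
          rw [← Real.exp_nat_mul]
          congr 1
          push_cast
          field_simp
  have h3 : Real.exp (-2) ≤ 1 / 3 := by
    have h4 : (3 : ℝ) ≤ Real.exp 2 := by
      have := Real.add_one_le_exp (2 : ℝ)
      linarith
    rw [Real.exp_neg, ← one_div]
    exact one_div_le_one_div_of_le (by norm_num) h4
  linarith

theorem random_tests {n D J : ℕ} (hD : 0 < D) (hJ : 0 < J) (T : Fin J → Finset (Fin n × Bool))
    (hT : ∀ j, (T j).card ≤ D) : ∃ U : (Fin (2 * D) → Fin J) → BP (Fin n) Bool,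
      (∀ ω, Fintype.card (U ω).State ≤ 2 * D * (D * 3 + 1) + 1 ∧
        ∀ x, ∃ (l : List (Fin n)) (b : Bool), l.length ≤ 2 * D * D ∧ (U ω).Comp x l b) ∧
      (∀ x, (∀ j, Sat (T j) x) → ∀ ω, ∃ l, (U ω).Comp x l true) ∧
      (∀ x, J ≤ D * Nat.card {j // ¬ Sat (T j) x} →
        3 * Nat.card {ω // ∃ l, (U ω).Comp x l true} ≤ J ^ (2 * D)) := by
  classical
  choose U hU1 hU2 using fun ω : Fin (2 * D) → Fin J =>
    clauses_program (k := D) (List.ofFn (fun i => T (ω i))) (by
      intro c hc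
      rw [List.mem_ofFn] at hc
      obtain ⟨i, rfl⟩ := hc
      exact hT _)
  simp only [List.length_ofFn, List.mem_ofFn] at hU1 hU2
  have key : ∀ ω x, (∃ l, (U ω).Comp x l true) ↔ ∀ i, Sat (T (ω i)) x := by
    intro ω x
    obtain ⟨l, b, _, h2, h3⟩ := hU2 ω x
    constructor
    · rintro ⟨l', h4⟩
      have h5 := (comp_unique (U ω) x h2 h4).2
      intro i
      exact (h3.1 h5) _ ⟨i, rfl⟩
    · intro h
      have : b = true := h3.2 (by rintro c ⟨i, rfl⟩; exact h i)
      rw [this] at h2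
      exact ⟨l, h2⟩
  refine ⟨U, fun ω => ⟨hU1 ω, fun x => ?_⟩, fun x hx ω => (key ω x).2 fun i => hx _, ?_⟩
  · obtain ⟨l, b, h1, h2, _⟩ := hU2 ω x
    exact ⟨l, b, h1, h2⟩
  · intro x hx
    have e1 : Nat.card {j // ¬ Sat (T j) x} = (univ.filter (fun j => ¬ Sat (T j) x)).card := by
      rw [Nat.card_eq_fintype_card, Fintype.card_subtype]
    have e2 : Nat.card {ω // ∃ l, (U ω).Comp x l true} =
        (univ.filter (fun j => Sat (T j) x)).card ^ (2 * D) := by
      rw [Nat.card_eq_fintype_card, Fintype.card_subtype]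
      have : (univ.filter (fun ω => ∃ l, (U ω).Comp x l true)) =
          Fintype.piFinset (fun _ : Fin (2 * D) => univ.filter (fun j => Sat (T j) x)) := by
        ext ω
        simp only [mem_filter, mem_univ, true_and, Fintype.mem_piFinset]
        exact key ω x
      rw [this, Fintype.card_piFinset]
      simp
    have e3 := Finset.card_filter_add_card_filter_not (s := (univ : Finset (Fin J)))
      (fun j => Sat (T j) x)
    rw [card_univ, Fintype.card_fin] at e3
    rw [e1] at hx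
    rw [e2]
    obtain ⟨a, ha⟩ : ∃ a : ℕ, a = (univ.filter (fun j => Sat (T j) x)).card := ⟨_, rfl⟩
    obtain ⟨b, hb⟩ : ∃ b : ℕ, b = (univ.filter (fun j => ¬ Sat (T j) x)).card := ⟨_, rfl⟩
    rw [← ha, ← hb] at e3
    rw [← hb] at hx
    rw [← ha]
    have hDR : (0 : ℝ) < D := by exact_mod_cast hD
    have h1 : (a : ℝ) ≤ J * (1 - 1 / (D : ℝ)) := by
      have h2 : (J : ℝ) ≤ D * b := by exact_mod_cast hx
      have h3 : (a : ℝ) + b = J := by exact_mod_cast e3
      have h4 : (J : ℝ) / D ≤ b := by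
        rw [div_le_iff₀ hDR]; linarith
      have h5 : (J : ℝ) * (1 - 1 / (D : ℝ)) = J - J / D := by ring
      rw [h5]
      linarith
    have h6 : (3 : ℝ) * (a : ℝ) ^ (2 * D) ≤ (J : ℝ) ^ (2 * D) := by
      calc (3 : ℝ) * (a : ℝ) ^ (2 * D) ≤ 3 * (J * (1 - 1 / (D : ℝ))) ^ (2 * D) := by
            apply mul_le_mul_of_nonneg_left _ (by norm_num)
            exact pow_le_pow_left₀ (Nat.cast_nonneg _) h1 _
        _ = (J : ℝ) ^ (2 * D) * (3 * (1 - 1 / (D : ℝ)) ^ (2 * D)) := by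
            rw [mul_pow]; ring
        _ ≤ (J : ℝ) ^ (2 * D) * 1 :=
            mul_le_mul_of_nonneg_left (pow_third D hD) (by positivity)
        _ = _ := mul_one _
    exact_mod_cast h6

end Pool.Agent.H554R2.Gap
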